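import Pool.Agent.X294.KR.Win

/-!
King and rook against king, starting position WK a1, WR b2, BK c3, White to move: White can force
checkmate on the board with `m` files and `n` ranks (`3 ≤ m, n ≤ ∞`), where the black king may
leave the board across the north or the east edge, if and only if `m ≥ 9, n ≥ 11` or
`m ≥ 11, n ≥ 9`. So the smallest boards are `9 × 11` and `11 × 9`.

Proof. A larger board is better for White (`Wins.mono`) and the reflection in the diagonal keeps
the starting position (`Wins.swap`). White's win on `9 × 11` is a table of 13627 positions with
the distance to mate and a move (`WData*`, checked in `WChk*`). For the boards `8 × ∞` and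
`10 × 10` there are sets of positions that Black can keep: an explicit inequality
(`T_resource`) together with 215 (up to translation) and 1056 further positions, in which the
rook only matters through its position relative to the black king.
-/

namespace Pool.Agent.Results.MP_b88367_co.BoardClassification

theorem result (m n : ℕ∞) (hm : 3 ≤ m) (hn : 3 ≤ n) :
    X294.KR.Wins m n X294.KR.start ↔ (9 ≤ m ∧ 11 ≤ n) ∨ (11 ≤ m ∧ 9 ≤ n) :=
  X294.KR.wins_iff m n hm hn

end Pool.Agent.Results.MP_b88367_co.BoardClassification
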