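import Pool.Agent.Helper226.KRK.WinCheck

namespace Pool.Agent.Results.MP_b88367_co.MateIn39

open Pool.Agent.Helper226.KRK

/-- King and rook against king, starting from WK a1, WR b2, BK c3 with White to move.
On the quarter-infinite board, and on every board (with exits for the black king across the
north and east edges) containing the `9 × 11` or the `11 × 9` board, White can force
checkmate within 39 moves. -/
theorem result :
    MateIn ⊤ ⊤ 39 start ∧
    ∀ m n : ℕ∞, (9 ≤ m ∧ 11 ≤ n) ∨ (11 ≤ m ∧ 9 ≤ n) → MateIn m n 39 start := by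
  have hwin : ∀ m n : ℕ∞, ((9 ≤ m ∧ 11 ≤ n) ∨ (11 ≤ m ∧ 9 ≤ n)) → MateIn m n 39 start := by
    rintro m n (⟨h1, h2⟩ | ⟨h1, h2⟩)
    · exact mateIn_39 h1 h2
    · have := (mateIn_39 h2 h1).sw
      exact this
  exact ⟨hwin ⊤ ⊤ (Or.inl ⟨le_top, le_top⟩), hwin⟩

end Pool.Agent.Results.MP_b88367_co.MateIn39
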